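import Pool.Agent.helper55.NK.Spec

set_option autoImplicit false

namespace Pool.Agent.helper18.NK

open Pool.Agent.NK Finset

theorem UNI_step (a b i j : ℕ) (h : j * (a + 1) ≤ i * (b + 1)) :
    a.choose i * (b + 1).choose j ≤ (a + 1).choose i * b.choose j := by
  rcases Nat.lt_or_ge a i with hai | hai
  · rw [Nat.choose_eq_zero_of_lt hai]
    simp
  · have e1 := Nat.choose_mul_succ_eq a i
    have e2 := Nat.choose_mul_succ_eq b j
    obtain ⟨c, rfl⟩ : ∃ c, a = i + c := ⟨a - i, by omega⟩
    have e3 : i + c + 1 - i = c + 1 := by omega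
    rw [e3] at e1
    have key : (c + 1) * (b + 1) ≤ (i + c + 1) * (b + 1 - j) := by
      have hj : j ≤ b + 1 := by
        by_contra hcon
        push Not at hcon
        have h1 : (b + 1) * (i + c + 1) < j * (i + c + 1) := Nat.mul_lt_mul_of_pos_right hcon (by omega)
        have h2 : i * (b + 1) ≤ (b + 1) * (i + c + 1) := by
          rw [Nat.mul_comm i (b + 1)]
          exact Nat.mul_le_mul_left _ (by omega)
        omega
      obtain ⟨d, hd⟩ : ∃ d, b + 1 = j + d := ⟨b + 1 - j, by omega⟩
      have e4 : b + 1 - j = d := by omega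
      rw [e4, hd]
      rw [hd] at h
      nlinarith
    have hpos : 0 < (c + 1) * (b + 1) := by positivity
    refine Nat.le_of_mul_le_mul_right ?_ hpos
    calc (i + c).choose i * (b + 1).choose j * ((c + 1) * (b + 1))
        ≤ (i + c).choose i * (b + 1).choose j * ((i + c + 1) * (b + 1 - j)) :=
          Nat.mul_le_mul_left _ key
      _ = ((i + c).choose i * (i + c + 1)) * ((b + 1).choose j * (b + 1 - j)) := by ring
      _ = ((i + c + 1).choose i * (c + 1)) * (b.choose j * (b + 1)) := by rw [e1, ← e2]
      _ = (i + c + 1).choose i * b.choose j * ((c + 1) * (b + 1)) := by ring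

theorem UNI_up (n i j a : ℕ) : ∀ d : ℕ, a + d ≤ n → (a + d) * (i + j) ≤ i * (n + 1) →
    a.choose i * (n - a).choose j ≤ (a + d).choose i * (n - (a + d)).choose j := by
  intro d
  induction d with
  | zero => intro _ _; exact le_refl _
  | succ d ih =>
    intro h1 h2
    have h3 : (a + d) * (i + j) ≤ i * (n + 1) := by nlinarith
    refine (ih (by omega) h3).trans ?_
    obtain ⟨b, hb⟩ : ∃ b, n = a + d + 1 + b := ⟨n - (a + d + 1), by omega⟩
    have e1 : n - (a + d) = b + 1 := by omega
    have e2 : n - (a + (d + 1)) = b := by omega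
    have e3 : a + (d + 1) = a + d + 1 := by omega
    rw [e1, e2, e3]
    apply UNI_step
    rw [e3] at h2
    rw [hb] at h2
    nlinarith

theorem UNI_down (n i j a : ℕ) (ha : i * (n + 1) ≤ (a + 1) * (i + j)) : ∀ d : ℕ, a + d ≤ n →
    (a + d).choose i * (n - (a + d)).choose j ≤ a.choose i * (n - a).choose j := by
  intro d
  induction d with
  | zero => intro _; exact le_refl _
  | succ d ih =>
    intro h1
    refine le_trans ?_ (ih (by omega))
    obtain ⟨b, hb⟩ : ∃ b, n = a + d + 1 + b := ⟨n - (a + d + 1), by omega⟩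
    have e1 : n - (a + d) = b + 1 := by omega
    have e2 : n - (a + (d + 1)) = b := by omega
    have e3 : a + (d + 1) = a + d + 1 := by omega
    rw [e1, e2, e3]
    have h := UNI_step b (a + d) j i (by
      have h4 : (a + 1) * (i + j) ≤ (a + d + 1) * (i + j) := Nat.mul_le_mul_right _ (by omega)
      rw [hb] at ha
      nlinarith)
    calc (a + d + 1).choose i * b.choose j = b.choose j * (a + d + 1).choose i := Nat.mul_comm _ _
      _ ≤ (b + 1).choose j * (a + d).choose i := h
      _ = (a + d).choose i * (b + 1).choose j := Nat.mul_comm _ _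

/-- For fixed `i, j` the product `C(a,i) C(n-a,j)` is maximal at `a = floor (i (n+1) / (i+j))`. -/
theorem UNI : UNI_stmt := by
  intro a b i j hi hj _
  set n := a + b with hn
  set a0 := i * (n + 1) / (i + j) with ha0
  have hpos : 0 < i + j := by omega
  have h1 : a0 * (i + j) ≤ i * (n + 1) := Nat.div_mul_le_self _ _
  have h2 : i * (n + 1) < (a0 + 1) * (i + j) := by
    have := Nat.lt_div_mul_add (a := i * (n + 1)) hpos
    rw [Nat.add_mul, Nat.one_mul]
    exact this
  have h3 : a0 ≤ n := by
    have : a0 < n + 1 := by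
      rw [ha0, Nat.div_lt_iff_lt_mul hpos]
      nlinarith
    omega
  have hb : b = n - a := by omega
  rw [hb]
  rcases Nat.le_total a a0 with h | h
  · obtain ⟨d, hd⟩ : ∃ d, a0 = a + d := ⟨a0 - a, by omega⟩
    rw [hd]
    exact UNI_up n i j a d (by omega) (by rw [← hd]; exact h1)
  · obtain ⟨d, hd⟩ : ∃ d, a = a0 + d := ⟨a - a0, by omega⟩
    have := UNI_down n i j a0 h2.le d (by omega)
    rw [← hd] at this
    exact this

end Pool.Agent.helper18.NK
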